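import Pool.Agent.Y645.UG.FinG
import Pool.Agent.Y484.UG.Star
import Pool.Agent.Y390.UG.TDg
import Pool.Agent.Y508.UG.Inc
import Pool.Agent.Y15.UG.Bg
import Pool.Agent.Y363.UG.Noe
import Pool.Agent.Y74.UG.Sub
import Pool.Agent.Y77.UG.ZIL1
import Pool.Agent.Y765.UG.Zil2
import Pool.Agent.Y484.UL.Lst
import Pool.Agent.Y948.UL.Coef
import Pool.Agent.Y79.UL.TD
import Pool.Agent.Y331.UL.Noe
import Pool.Agent.Y331.UL.Pair
import Pool.Agent.Y388.UL.Spc
import Pool.Agent.Y79.UL.SelNull
import Pool.Agent.Y949.UL.Dim
import Pool.Agent.Y153.UL.Tor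
import Pool.Agent.Y363.UL.Ext

/-!
# Zilber's conjecture in tori, codimension by codimension

For every `c` the following statements are equivalent.

* For all tori and all closed subsets `V`, and all `δ < c`, the subvarieties of `V` of defect at
  most `δ` are contained in finitely many of them.
* Zilber's conjecture for all subvarieties of codimension at most `c` of all tori: if the
  points of `Y` which lie in algebraic subgroups `H` with `dim Y + dim H ≤ n - 1` are Zariski dense in
  `Y`, then `Y` is contained in a proper algebraic subgroup.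
* The same for subvarieties over the algebraic numbers.
* For all products `P` of at most `c` hyperplanes `x_1 + ... + x_m = 0` the algebraic points of `P`
  which lie in algebraic subgroups of dimension less than the number of the hyperplanes are
  contained in finitely many subvarieties of `P` of defect less than this number.

Parts of the proof were written by helpers 15, 68, 74, 77, 79, 153, 331, 363, 388, 390, 484, 508,
765, 948 and 949.
-/

set_option autoImplicit false

namespace Pool.Agent.Results.MP_c95b3b_ag.CodimensionByCodimension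

open MvPolynomial Module

section defs

variable {k ι : Type} [Field k]

/-- The ideal of the polynomials over `k` which vanish at all points of the subset `A` of the
torus of the points with nonzero coordinates in `k`. -/
def vanishing (A : Set (ι → kˣ)) : Ideal (MvPolynomial ι k) where
  carrier := {f | ∀ x ∈ A, eval (fun j => (x j : k)) f = 0}
  add_mem' := by
    intro f g hf hg x hx
    rw [map_add, hf x hx, hg x hx, add_zero]
  zero_mem' := by
    intro x _
    exact map_zero _
  smul_mem' := by
    intro c f hf x hx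
    rw [smul_eq_mul, map_mul, hf x hx, mul_zero]

/-- `A` is a Zariski closed subset of the torus: the set of the common zeros of some
polynomials. -/
def IsClosedSubset (A : Set (ι → kˣ)) : Prop :=
  ∃ J : Set (MvPolynomial ι k), A = {x | ∀ f ∈ J, eval (fun j => (x j : k)) f = 0}

/-- `A` is a subvariety of the torus: closed and irreducible (so not empty). -/
def IsSubvariety (A : Set (ι → kˣ)) : Prop := IsClosedSubset A ∧ (vanishing A).IsPrime

/-- The dimension of `A`: the transcendence degree over `k` of its coordinate ring. -/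
noncomputable def dimension (A : Set (ι → kˣ)) : ℕ :=
  Cardinal.toNat (Algebra.trdeg k (MvPolynomial ι k ⧸ vanishing A))

variable [Fintype ι]

/-- The lattice of the multiplicative relations of `A`: the exponents of the characters which are
equal to 1 at all points of `A`. The smallest algebraic subgroup which contains `A` has the
dimension of the torus minus the rank of this lattice as dimension. -/
def relations (A : Set (ι → kˣ)) : Submodule ℤ (ι → ℤ) where
  carrier := {a | ∀ x ∈ A, ∏ j, x j ^ a j = 1}
  add_mem' := by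
    intro a b ha hb x hx
    have h1 := ha x hx
    have h2 := hb x hx
    simp only [Pi.add_apply, zpow_add, Finset.prod_mul_distrib]
    rw [h1, h2, one_mul]
  zero_mem' := by
    intro x _
    simp
  smul_mem' := by
    intro c a ha x hx
    have h1 := ha x hx
    simp only [Pi.smul_apply, smul_eq_mul]
    have h2 : ∏ j, x j ^ (c * a j) = (∏ j, x j ^ a j) ^ c := by
      rw [← Finset.prod_zpow]
      exact Finset.prod_congr rfl fun j _ => by rw [mul_comm, zpow_mul]
    rw [h2, h1, one_zpow]

/-- The defect of `A`: the dimension of the smallest algebraic subgroup which contains `A` minus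
the dimension of `A`. -/
noncomputable def defect (A : Set (ι → kˣ)) : ℤ :=
  (Fintype.card ι : ℤ) - (finrank ℤ (relations A) : ℤ) - (dimension A : ℤ)

/-- The subvarieties of `V` of defect at most `δ` are all contained in finitely many of them, so
the union of the subvarieties of `V` of defect at most `δ` is a finite union of such
subvarieties. -/
def FinitelyManyMaximal (V : Set (ι → kˣ)) (δ : ℤ) : Prop :=
  ∃ 𝒜 : Set (Set (ι → kˣ)), 𝒜.Finite ∧ (∀ A ∈ 𝒜, IsSubvariety A ∧ A ⊆ V ∧ defect A ≤ δ) ∧
    ∀ A, IsSubvariety A → A ⊆ V → defect A ≤ δ → ∃ A' ∈ 𝒜, A ⊆ A'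

/-- The points `x` of `Y` which lie in algebraic subgroups `H` with `dim Y + dim H ≤ n - 1`, that is
those for which the rank of the lattice of the relations of `x` is greater than `dim Y`, are
Zariski dense in `Y`. -/
def UnlikelyPointsDense (Y : Set (ι → kˣ)) : Prop :=
  ∀ f : MvPolynomial ι k,
    (∀ x ∈ Y, dimension Y < finrank ℤ (relations {x}) → eval (fun j => (x j : k)) f = 0) →
    ∀ x ∈ Y, eval (fun j => (x j : k)) f = 0

end defs

/-- The product of the hyperplanes with the equations `∑ x_n = 0`, where `n` runs through the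
indices with `f n = i`, one for every `i : I`, over the algebraic numbers. -/
def hyperplaneProduct {I N : Type} [Fintype N] [DecidableEq I] (f : N → I) :
    Set (N → (AlgebraicClosure ℚ)ˣ) :=
  {x | ∀ i, ∑ n, (if f n = i then (x n : AlgebraicClosure ℚ) else 0) = 0}

/-- The algebraic numbers are algebraic over the rational numbers. -/
theorem isAlgebraic_rat :
    @Algebra.IsAlgebraic ℚ (AlgebraicClosure ℚ) _ _ DivisionRing.toRatAlgebra := by
  have h : Algebra.IsAlgebraic ℚ (AlgebraicClosure ℚ) := AlgebraicClosure.isAlgebraic ℚ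
  convert! h

/-- From the property of the algebraic numbers to all fields. -/
theorem all_fields (c : ℕ) (hP : Pool.Agent.Y645.UG.PPg (AlgebraicClosure ℚ) c) (k : Type)
    [Field k] [IsAlgClosed k] [CharZero k] (ι : Type) [Fintype ι] (V : Set (ι → kˣ)) (δ : ℕ)
    (hδ : δ < c) (hV : IsClosedSubset V) : FinitelyManyMaximal V (δ : ℤ) := by
  have hQ := isAlgebraic_rat
  let _ : Algebra (AlgebraicClosure ℚ) k :=
    ((IsAlgClosed.lift : AlgebraicClosure ℚ →ₐ[ℚ] k) : AlgebraicClosure ℚ →+* k).toAlgebra
  have hPk := Pool.Agent.Y15.UG.t_Bg (Pool.Agent.Y79.UL.t_TD1 Pool.Agent.Y948.UL.t_COEF)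
    Pool.Agent.Y79.UL.t_TD2 Pool.Agent.Y508.UG.t_INCg Pool.Agent.Y390.UG.t_TDg
    (AlgebraicClosure ℚ) k c hP
  exact Pool.Agent.Y645.UG.FinDef_of_AAg Pool.Agent.Y388.UL.t_REL Pool.Agent.Y949.UL.t_DIM
    Pool.Agent.Y331.UL.t_GEN Pool.Agent.Y79.UL.t_NULL k c
    (Pool.Agent.Y363.UG.t_Ag Pool.Agent.Y331.UL.t_GEN k c hPk) ι V δ hδ hV

/-- Zilber's conjecture in codimension at most `c` is equivalent to its case over the algebraic
numbers, to the articulated form for the defects less than `c`, and to the finiteness for the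
algebraic points on the products of at most `c` hyperplanes. -/
theorem result (c : ℕ) :
    List.TFAE [
      ∀ (k : Type) [Field k] [IsAlgClosed k] [CharZero k] (ι : Type) [Fintype ι]
        (V : Set (ι → kˣ)) (δ : ℕ), δ < c → IsClosedSubset V → FinitelyManyMaximal V δ,
      ∀ (k : Type) [Field k] [IsAlgClosed k] [CharZero k] (ι : Type) [Fintype ι]
        (Y : Set (ι → kˣ)), IsSubvariety Y → Fintype.card ι ≤ dimension Y + c →
        UnlikelyPointsDense Y → relations Y ≠ ⊥,
      ∀ (ι : Type) [Fintype ι] (Y : Set (ι → (AlgebraicClosure ℚ)ˣ)), IsSubvariety Y →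
        Fintype.card ι ≤ dimension Y + c → UnlikelyPointsDense Y → relations Y ≠ ⊥,
      ∀ (I N : Type) [Fintype I] [DecidableEq I] [Fintype N] (f : N → I),
        Function.Surjective f → Fintype.card I ≤ c →
        ∃ 𝒜 : Set (Set (N → (AlgebraicClosure ℚ)ˣ)), 𝒜.Finite ∧
        (∀ A ∈ 𝒜, IsSubvariety A ∧ A ⊆ hyperplaneProduct f ∧ defect A < (Fintype.card I : ℤ)) ∧
        ∀ x ∈ hyperplaneProduct f,
          Fintype.card N < Fintype.card I + finrank ℤ (relations {x}) → ∃ A ∈ 𝒜, x ∈ A] := by
  have hTOR := Pool.Agent.Y153.UL.t_TOR Pool.Agent.Y363.UL.t_EXT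
  tfae_have 1 → 2 := by
    intro h k _ _ _
    exact Pool.Agent.Y765.UG.t_ZIL2 k c (fun ι _ V δ hδ hV => h k ι V δ hδ hV)
  tfae_have 2 → 3 := fun h => h (AlgebraicClosure ℚ)
  tfae_have 3 → 1 := by
    intro h
    have hP : Pool.Agent.Y645.UG.PPg (AlgebraicClosure ℚ) c :=
      Pool.Agent.Y77.UG.t_ZIL1 Pool.Agent.Y74.UG.t_SUB hTOR Pool.Agent.Y79.UL.t_NULL
        Pool.Agent.Y949.UL.t_DIM Pool.Agent.Y388.UL.t_REL Pool.Agent.Y390.UG.t_TDg
        (AlgebraicClosure ℚ) c h
    intro k _ _ _ ι _ V δ hδ hV
    exact all_fields c hP k ι V δ hδ hV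
  tfae_have 1 → 4 := by
    intro h
    exact Pool.Agent.Y645.UG.LPg_of_FinDef (k := AlgebraicClosure ℚ) c
      (fun I N _ _ _ f δ hδ => h (AlgebraicClosure ℚ) N (hyperplaneProduct f) δ hδ
        (Pool.Agent.Y645.UG.isClosedT_hypP (AlgebraicClosure ℚ) f))
  tfae_have 4 → 1 := by
    intro h
    have hLP : Pool.Agent.Y645.UG.LPg (AlgebraicClosure ℚ) c := h
    have hH := Pool.Agent.Y645.UG.HHg_of_LPg Pool.Agent.Y388.UL.t_REL Pool.Agent.Y949.UL.t_DIM
      Pool.Agent.Y331.UL.t_GEN hTOR (AlgebraicClosure ℚ) c hLP
    have hQ := isAlgebraic_rat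
    have hP := Pool.Agent.Y645.UG.t_Cg Pool.Agent.Y948.UL.t_INT Pool.Agent.Y484.UL.t_LST
      Pool.Agent.Y331.UL.t_PULL Pool.Agent.Y79.UL.t_SEL Pool.Agent.Y484.UG.t_STARg
      Pool.Agent.Y390.UG.t_TDg (AlgebraicClosure ℚ) c hH
    intro k _ _ _ ι _ V δ hδ hV
    exact all_fields c hP k ι V δ hδ hV
  tfae_finish

end Pool.Agent.Results.MP_c95b3b_ag.CodimensionByCodimension
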