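import Pool.Agent.Y910.Z.Z3
import Pool.Agent.Y199.ZF.Fam

/-!
# MP_c95b3b_ag: Zilber's conjecture for the members of one-parameter families of subvarieties of
tori over finitely generated fields

**Families.** Let `A_1, …, A_m ⊂ ℤ^n` be arbitrary finite nonempty sets of exponents, and let
`c_jβ ∈ ℂ[t]` be nonzero polynomials, `β ∈ A_j`. For `t ∈ ℂ` let `X_t ⊂ (ℂ^×)^n` be the algebraic
set defined by the Laurent polynomials `f_j = ∑_β c_jβ(t) x^β`, `j ≤ m` (`member`). Every
one-parameter algebraic family of subvarieties of the torus is of this form.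

**Tropicalization.** For a complex number `α` the tropicalization of the family at `t = α` is the set
`Trop_α` of the `w ∈ ℚ^n` such that for all `j` the minimum of the numbers
`ord_α (c_jβ) + β · w`, `β ∈ A_j`, is attained at least twice.

**Theorem.** Let `D_1, …, D_M` be finite sets of complex numbers, and suppose that no linear
subspace of `ℚ^n` of dimension less than `r` meets all the sets `Trop_{α_l}`, `l ∈ S`, if `S` has `N`
elements and `α_l` is in `D_l`. Let `F` be a finite set of complex numbers.

1. If the union of any `M - N + 1` (or more) of the sets `D_l` has at least three elements (for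
   instance, if there are `M ≥ N + 2` disjoint nonempty sets, or `N` sets with three elements), then
   for all but finitely many `t` in the field generated by `F`, and
2. if the union of any `M - N + 1` (or more) of the sets `D_l` has at least two elements, then for
   all but finitely many `t` in the ring generated by `F`,

the set `X_t` has no atypical intersection with the torsion cosets, and more generally with the cosets
`η H` of all algebraic subgroups `H` of the torus by all points `η` whose coordinates are units of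
the integral closure of `ℤ[Γ]` in `ℂ`, where `Γ` is any given finite set of complex numbers (`Γ = ∅`:
`η` has coordinates which are algebraic units): every irreducible subset of `X_t ∩ η H` has dimension
at most `dim H - r`. In particular (`H` the torus) all components of `X_t` have dimension at most
`n - r`, and `X_t` does not meet `η H` if `dim H < r`; so the set `U(Y)` of the problem is empty for
all components `Y` of `X_t` of dimension `n - r`.

The condition on the tropicalizations is satisfied for almost all systems of orders, see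
`general_position` in the file `TropicallyGenericFamilies`. The theorem of that file treats rational
`α_l` and parameters `t` which are transcendental over the field of the coefficients, or algebraic of
degree at most `d` over the rational numbers (then `M ≥ N + 2 d` is needed). Here the family, the
degenerate parameters and the finitely generated field are arbitrary; for the elements of a number
field of any degree `M ≥ N + 2` suffices, for its `S`-integers `M ≥ N + 1`.

The proof: if for `N` of the `l` there is a place of `ℂ` which is good for the family and at which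
`t` is near to an element of `D_l`, then the local criterion of the files `Y199` applies. Otherwise
`t` differs from all the elements of `M - N + 1` of the sets `D_l` by units of the ring generated by
`t` and a fixed finite set. This happens only for finitely many `t`, by the finiteness of the
solutions of the unit equation in finitely generated rings (files of `Y741`), and for the elements of
a field since the integral closure of a finitely generated ring is contained in a finitely generated
ring (files `Y910/Z`).
-/

set_option autoImplicit false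

namespace Pool.Agent.Results.MP_c95b3b_ag.FinitelyGeneratedFields

open Pool.Agent.Results.MP_b7926e_nt.NoAtypical (coset idealOf dim)
open Pool.Agent.Y910.Z

variable {n m : ℕ}

/-- The member `X_t` of the family: the points of the torus at which all the Laurent polynomials
`∑_β c_jβ(t) x^β` vanish. -/
def member (A : Fin m → Finset (Fin n → ℤ)) (c : Fin m → (Fin n → ℤ) → Polynomial ℂ) (t : ℂ) :
    Set (Fin n → ℂ) :=
  {x | (∀ i, x i ≠ 0) ∧
    ∀ j, ∑ β ∈ A j, Polynomial.aeval t (c j β) * ∏ i, x i ^ β i = 0}

/-- The order at `α` of the coefficient `c_jβ`. -/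
noncomputable def order (c : Fin m → (Fin n → ℤ) → Polynomial ℂ) (α : ℂ) (j : Fin m)
    (β : Fin n → ℤ) : ℤ :=
  ((c j β).rootMultiplicity α : ℤ)

/-- The tropicalization of a system with the supports `A_j` and coefficients of the orders `e_jβ`: the
points `w` of `ℚ^n` such that for all `j` the minimum of `e_jβ + β · w` is attained at two different
exponents `a, b ∈ A_j`. -/
def Trop (A : Fin m → Finset (Fin n → ℤ)) (e : Fin m → (Fin n → ℤ) → ℤ) : Set (Fin n → ℚ) :=
  {w | ∀ j, ∃ a ∈ A j, ∃ b ∈ A j, a ≠ b ∧
    (e j a : ℚ) + ∑ i, (a i : ℚ) * w i = (e j b : ℚ) + ∑ i, (b i : ℚ) * w i ∧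
    ∀ β ∈ A j, (e j a : ℚ) + ∑ i, (a i : ℚ) * w i ≤ (e j β : ℚ) + ∑ i, (β i : ℚ) * w i}

/-- No linear space of dimension less than `r` meets all the tropicalizations of the family at the
parameters `α_l`, `l ∈ S`, if `S` has `N` elements and `α_l` is in `D l`. -/
def InGeneralPosition (r N : ℕ) (A : Fin m → Finset (Fin n → ℤ))
    (c : Fin m → (Fin n → ℤ) → Polynomial ℂ) {M : ℕ} (D : Fin M → Finset ℂ) : Prop :=
  ∀ L : Submodule ℚ (Fin n → ℚ), Module.finrank ℚ L < r →
    ∀ S : Finset (Fin M), S.card = N → ∀ α : Fin M → ℂ, (∀ l ∈ S, α l ∈ D l) →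
      ∃ l ∈ S, ∀ w ∈ L, w ∉ Trop A (order c (α l))

/-- `z` is a unit of the integral closure in `ℂ` of the ring generated by `Γ`. -/
def IsUnitOver (Γ : Set ℂ) (z : ℂ) : Prop :=
  z ≠ 0 ∧ IsIntegral (Algebra.adjoin ℤ Γ) z ∧ IsIntegral (Algebra.adjoin ℤ Γ) z⁻¹

/-- `X` has no atypical intersection with the cosets of algebraic subgroups by points whose
coordinates are units over `Γ`: every irreducible subset `B` of `X ∩ η H` has dimension at most
`dim H - r`. Here `η H = {y | y ^ a = η ^ a for all a in Λ}` and `dim H = n - rank Λ`. -/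
def NoAtypical (r : ℕ) (Γ : Set ℂ) (X : Set (Fin n → ℂ)) : Prop :=
  ∀ (Λ : Submodule ℤ (Fin n → ℤ)) (η : Fin n → ℂ), (∀ i, IsUnitOver Γ (η i)) →
    ∀ B : Set (Fin n → ℂ), B ⊆ X → B ⊆ coset Λ η → (idealOf B).IsPrime →
      dim B + (r : Cardinal) + (Module.finrank ℤ Λ : Cardinal) ≤ (n : Cardinal)

/-- A torsion coset is a coset by a point whose coordinates are units over every set. -/
theorem isUnitOver_of_pow (Γ : Set ℂ) {z : ℂ} {q : ℕ} (hq : 0 < q) (h : z ^ q = 1) :
    IsUnitOver Γ z := by
  have hz : z ≠ 0 := by
    rintro rfl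
    rw [zero_pow hq.ne'] at h
    exact zero_ne_one h
  have hint : ∀ w : ℂ, w ^ q = 1 → IsIntegral (Algebra.adjoin ℤ Γ) w := fun w hw =>
    IsIntegral.of_pow hq (by rw [hw]; exact isIntegral_one)
  exact ⟨hz, hint z h, hint _ (by rw [inv_pow, h, inv_one])⟩

/-- One-parameter families of subvarieties of the torus whose tropicalizations at sufficiently many
parameters are in general position: only finitely many of the members with parameter in a finitely
generated field (or ring) have an atypical intersection. -/
theorem result {M : ℕ} (r N : ℕ) (A : Fin m → Finset (Fin n → ℤ)) (hA : ∀ j, (A j).Nonempty)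
    (c : Fin m → (Fin n → ℤ) → Polynomial ℂ) (hc : ∀ j, ∀ β ∈ A j, c j β ≠ 0)
    (D : Fin M → Finset ℂ) (hgen : InGeneralPosition r N A c D)
    (Γ : Set ℂ) (hΓ : Γ.Finite) (F : Finset ℂ) :
    ((∀ I : Finset (Fin M), M < I.card + N → 3 ≤ (I.biUnion D).card) →
      {t : ℂ | t ∈ Subfield.closure (F : Set ℂ) ∧ ¬ NoAtypical r Γ (member A c t)}.Finite) ∧
    ((∀ I : Finset (Fin M), M < I.card + N → 2 ≤ (I.biUnion D).card) →
      {t : ℂ | t ∈ Subring.closure (F : Set ℂ) ∧ ¬ NoAtypical r Γ (member A c t)}.Finite) := by
  classical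
  let U : Finset ℂ := Finset.univ.biUnion D
  have hU : ∀ l, ∀ z ∈ D l, z ∈ U := fun l z hz =>
    Finset.mem_biUnion.2 ⟨l, Finset.mem_univ _, hz⟩
  let ρt : Fin U.card → ℂ := fun l => (U.equivFin.symm l : ℂ)
  have hρ : ∀ z ∈ U, ∃ l, ρt l = z := by
    intro z hz
    refine ⟨U.equivFin ⟨z, hz⟩, ?_⟩
    simp [ρt]
  obtain ⟨W₀, hW₀, hΓW, hnear⟩ := Pool.Agent.Y199.ZF.near (k := ℂ) A c hc ρt Γ hΓ
  let W : Finset ℂ := hW₀.toFinset ∪ U
  have hW₀W : ∀ z ∈ W₀, z ∈ (W : Set ℂ) := by
    intro z hz
    simp only [W, Finset.coe_union, Set.mem_union, Finset.mem_coe, Set.Finite.mem_toFinset]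
    exact Or.inl hz
  have hUW : ∀ z ∈ U, z ∈ (W : Set ℂ) := by
    intro z hz
    simp only [W, Finset.coe_union, Set.mem_union, Finset.mem_coe]
    exact Or.inr hz
  -- units over `Γ`
  have hunit : ∀ V : ValuationSubring ℂ, (∀ z ∈ (W : Set ℂ), z ∈ V) → ∀ z, IsUnitOver Γ z →
      V.valuation z = 1 := by
    intro V hV z ⟨hz0, h1, h2⟩
    have h3 : ∀ w : ℂ, IsIntegral (Algebra.adjoin ℤ Γ) w → V.valuation w ≤ 1 := by
      intro w hw
      have h4 : algebraMap ℂ ℂ '' Γ = Γ := by
        rw [Algebra.algebraMap_self]
        exact Set.image_id Γ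
      refine Pool.Agent.Y152.BD.v_le_of_int (k := ℂ) Γ V
        (fun x hx => hV x (hW₀W x (hΓW hx))) ?_
      rw [h4]
      exact hw
    refine le_antisymm (h3 z h1) ?_
    have h5 := h3 _ h2
    rw [map_inv₀] at h5
    have h6 : V.valuation z ≠ 0 := (Valuation.ne_zero_iff _).2 hz0
    exact (inv_le_one₀ (zero_lt_iff.2 h6)).1 h5
  -- the criterion
  have main : ∀ t : ℂ, t ∉ U → (∀ j, ∀ β ∈ A j, Polynomial.aeval t (c j β) ≠ 0) →
      (∃ f : Fin N → Fin M, Function.Injective f ∧ ∀ l, ∃ a ∈ D (f l), ¬ Bad (W : Set ℂ) t a) →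
      NoAtypical r Γ (member A c t) := by
    intro t htU hc0 ⟨f, hf, hV⟩ Λ η hη B hBX hBT hB
    have hV' : ∀ l, ∃ (V : ValuationSubring ℂ) (a : ℂ), a ∈ D (f l) ∧ V.valuation (t - a) < 1 ∧
        ∀ z ∈ (W : Set ℂ), z ∈ V := by
      intro l
      obtain ⟨a, ha, hbad⟩ := hV l
      obtain ⟨V, h1, h2, -⟩ := exists_place (k := ℂ) (W : Set ℂ) (hUW a (hU _ a ha)) hbad
        (Empty.elim : Empty → ℂ)
        (algebraicIndependent_empty_type_iff.2 (algebraMap ℂ ℂ).injective)
      exact ⟨V, a, ha, h1, h2⟩
    choose V α hα hV1 hV2 using hV'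
    refine Pool.Agent.Y199.ZF.crit A hA (fun j β => Polynomial.aeval t (c j β)) hc0 V
      (fun l => t - α l) (fun l => sub_ne_zero.2 fun h => htU (by
        rw [h]
        exact hU _ _ (hα l))) hV1
      (fun l => order c (α l)) (fun l j β hβ => ?_) (fun L hL => ?_) Λ η
      (fun i => (hη i).1) (fun l i => hunit (V l) (hV2 l) _ (hη i)) B hBX hBT hB
    · obtain ⟨l', hl'⟩ := hρ (α l) (hU _ _ (hα l))
      have h1 := hnear (V l) (fun z hz => hV2 l z (hW₀W z hz)) l' t
        (by rw [hl']; exact hV1 l) j β hβ
      rw [hl'] at h1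
      rw [order, zpow_natCast]
      exact h1
    · -- a choice of parameters
      let α' : Fin M → ℂ := fun l => if h : ∃ l', f l' = l then α h.choose else 0
      have hα' : ∀ l, α' (f l) = α l := by
        intro l
        have h : ∃ l', f l' = f l := ⟨l, rfl⟩
        have h1 : h.choose = l := hf h.choose_spec
        simp only [α', dif_pos h, h1]
      obtain ⟨l, hl, h1⟩ := hgen L hL (Finset.univ.map ⟨f, hf⟩)
        (by rw [Finset.card_map, Finset.card_univ, Fintype.card_fin]) α' (by
          intro l hl
          obtain ⟨l', -, rfl⟩ := Finset.mem_map.1 hl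
          have h2 := hα' l'
          change α' (f l') ∈ D (f l')
          rw [h2]
          exact hα l')
      obtain ⟨l', -, rfl⟩ := Finset.mem_map.1 hl
      refine ⟨l', ?_⟩
      have h2 := hα' l'
      change ∀ w ∈ L, w ∉ Trop A (order c (α' (f l'))) at h1
      rw [h2] at h1
      exact h1
  have hroots : (⋃ j, ⋃ β ∈ A j, {t : ℂ | Polynomial.aeval t (c j β) = 0}).Finite := by
    refine Set.finite_iUnion fun j => (A j).finite_toSet.biUnion fun β hβ => ?_
    refine ((c j β).aroots ℂ).toFinset.finite_toSet.subset fun t ht => ?_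
    rw [Finset.mem_coe, Multiset.mem_toFinset, Polynomial.mem_aroots]
    exact ⟨hc j β hβ, ht⟩
  let E : Set ℂ := {t | t ∉ U ∧ (∀ j, ∀ β ∈ A j, Polynomial.aeval t (c j β) ≠ 0) ∧
    ¬ NoAtypical r Γ (member A c t)}
  have hE : ∀ t ∈ E, ¬ ∃ f : Fin N → Fin M, Function.Injective f ∧
      ∀ l, ∃ a ∈ D (f l), ¬ Bad (W : Set ℂ) t a := fun t ht h => ht.2.2 (main t ht.1 ht.2.1 h)
  have hsub : ∀ P : ℂ → Prop, {t : ℂ | P t ∧ t ∈ E}.Finite →
      {t : ℂ | P t ∧ ¬ NoAtypical r Γ (member A c t)}.Finite := by
    intro P h
    refine (h.union (hroots.union U.finite_toSet)).subset ?_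
    rintro t ⟨htP, ht⟩
    by_contra hcon
    rw [Set.mem_union, Set.mem_union, not_or, not_or] at hcon
    obtain ⟨h1, h2, h3⟩ := hcon
    refine h1 ⟨htP, h3, fun j β hβ h => h2 ?_, ht⟩
    exact Set.mem_iUnion.2 ⟨j, Set.mem_biUnion hβ h⟩
  rcases Nat.eq_zero_or_pos N with hN | hN
  · -- nothing to do
    have hE0 : E = ∅ := by
      rw [Set.eq_empty_iff_forall_notMem]
      intro t ht
      subst hN
      exact hE t ht ⟨Fin.elim0, fun a => a.elim0, fun l => l.elim0⟩
    refine ⟨fun _ => hsub _ ?_, fun _ => hsub _ ?_⟩
    · rw [hE0]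
      simp
    · rw [hE0]
      simp
  · obtain ⟨L, rfl⟩ : ∃ L, N = L + 1 := ⟨N - 1, by omega⟩
    refine ⟨fun hM => hsub _ ?_, fun hM => hsub _ ?_⟩
    · exact finite_field (k := ℂ) (L := L) W F D (fun I hI => hM I (by omega)) E hE
    · exact finite_ring (k := ℂ) (L := L) W F D (fun I hI => hM I (by omega)) E hE

end Pool.Agent.Results.MP_c95b3b_ag.FinitelyGeneratedFields
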