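import Pool.Agent.Y152.RP.Main
import Pool.Agent.Y152.RP.Tor

/-!
# MP_c95b3b_ag: Zilber's conjecture for all but finitely many members with radical parameters, and
with roots of unity as parameters, of one-parameter families of subvarieties of tori

**Families.** Let `A_1, …, A_m ⊂ ℤ^n` be arbitrary finite nonempty sets of exponents, `K ⊂ ℂ` a
field, and let `c_jβ ∈ K[t]` be nonzero polynomials, `β ∈ A_j`. For `t ∈ ℂ` let
`X_t ⊂ (ℂ^×)^n` be the algebraic set defined by the Laurent polynomials
`f_j = ∑_β c_jβ(t) x^β`, `j ≤ m` (`member`). Every one-parameter family of subvarieties of the torus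
is of this form.

**Tropicalization.** For a rational number `α` the tropicalization of the family at `t = α` is the set
`Trop_α` of the `w ∈ ℚ^n` such that for all `j` the minimum of the numbers
`ord_α (c_jβ) + β · w`, `β ∈ A_j`, is attained at least twice.

**Theorem.** Let `α_1, …, α_M` be nonzero rational numbers, and suppose that no linear subspace of
`ℚ^n` of dimension less than `r` meets `N` of the sets `Trop_{α_l}`.

1. If the `|α_l|` are distinct and `N + 2 ≤ M` then for all but finitely many complex numbers `t` of
   which some power is rational (of any degree over `ℚ`), and
2. if `|α_l| ≠ 1` for all `l` and `N ≤ M` then for all but finitely many roots of unity `t`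

the set `X_t` has no atypical intersection with the torsion cosets, and more generally with the cosets
`η H` of all algebraic subgroups `H` of the torus by all points `η` whose coordinates are units of
the integral closure of `ℤ[Γ]` in `ℂ`, where `Γ` is any given finite subset of `K` (`Γ = ∅`:
`η` has coordinates which are algebraic units): every irreducible subset of `X_t ∩ η H` has dimension
at most `dim H - r`. In particular (`H` the torus) all components of `X_t` have dimension at most
`n - r`, and `X_t` does not meet `η H` if `dim H < r`; so the set `U(Y)` of the problem is empty for
all components `Y` of `X_t` of dimension `n - r`.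

For a root of unity `t` the sets `{t} × η H`, `η` torsion, are torsion cosets of the torus of
dimension `n + 1`; so 2. says that the total space `{(t, x) | x ∈ X_t}` has atypical intersections
with torsion cosets of this kind over finitely many `t` only.

The general position condition holds for almost all systems of orders; for complete intersections
`m = r` see `Pool.Agent.Y152.RP.Tor.general_position`. The families, the condition and the criterion
are those of the file `TropicallyGenericFamilies` (by helper199), which treats transcendental
parameters `t`, and for `N + 2 d ≤ M` algebraic parameters of degree at most `d`. Here the number of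
degenerate members does not depend on the degree of `t`. The new arithmetic theorem
(`Pool.Agent.Y152.RP.Main`) says that for given nonzero rational numbers `a_1, a_2, a_3` of distinct
absolute values and a number `D`, for all but finitely many radical `t` the value of the minimal
polynomial of `t` at one of the `a_i` has a prime factor larger than `D`, and for all but finitely
many roots of unity `t` this is true for every rational `a ≠ 0, ±1`.
-/

set_option autoImplicit false

namespace Pool.Agent.Results.MP_c95b3b_ag.RadicalMembers

open Pool.Agent.Y152.RP.Tor (member order Trop InGeneralPosition NoAtypical)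

/-- Some power of `t` with positive exponent is a rational number. -/
def IsRadical (t : ℂ) : Prop := ∃ N : ℕ, 0 < N ∧ ∃ q : ℚ, t ^ N = (q : ℂ)

/-- `t` is a root of unity. -/
def IsRootOfUnity (t : ℂ) : Prop := ∃ N : ℕ, 0 < N ∧ t ^ N = 1

/-- One-parameter families of subvarieties of the torus whose tropicalizations at sufficiently many
rational parameters are in general position: only finitely many of the members with radical
parameters (with roots of unity as parameters) have an atypical intersection. -/
theorem result {n m M : ℕ} {K : Subfield ℂ} (r N : ℕ) (A : Fin m → Finset (Fin n → ℤ))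
    (hA : ∀ j, (A j).Nonempty) (c : Fin m → (Fin n → ℤ) → Polynomial K)
    (hc : ∀ j, ∀ β ∈ A j, c j β ≠ 0) (α : Fin M → ℚ) (hα : ∀ l, α l ≠ 0)
    (hgen : InGeneralPosition r N fun l => Trop A (order c (α l)))
    (Γ : Set ℂ) (hΓ : Γ.Finite) (hΓK : Γ ⊆ K) :
    ((∀ l l', l ≠ l' → |α l| ≠ |α l'|) → N + 2 ≤ M →
      {t : ℂ | IsRadical t ∧ ¬ NoAtypical r Γ (member A c t)}.Finite) ∧
    ((∀ l, |α l| ≠ 1) → N ≤ M →
      {t : ℂ | IsRootOfUnity t ∧ ¬ NoAtypical r Γ (member A c t)}.Finite) := by
  refine ⟨fun hdist hM => ?_, fun hne hM => ?_⟩
  · exact Pool.Agent.Y152.RP.Tor.family r N A hA c hc α hgen Γ hΓ hΓK {t : ℂ | IsRadical t}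
      fun D => Pool.Agent.Y152.RP.arithMain D N M hM α hα hdist
  · exact Pool.Agent.Y152.RP.Tor.family r N A hA c hc α hgen Γ hΓ hΓK {t : ℂ | IsRootOfUnity t}
      fun D => Pool.Agent.Y152.RP.unityMain hM α hα hne D

end Pool.Agent.Results.MP_c95b3b_ag.RadicalMembers
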