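import Pool.Agent.Y199.ZF.Fam

/-!
# MP_c95b3b_ag: Zilber's conjecture for one-parameter families of subvarieties of tori whose
tropicalizations at sufficiently many rational parameters are in general position

**Families.** Let `A_1, …, A_m ⊂ ℤ^n` be arbitrary finite nonempty sets of exponents, `K ⊂ ℂ` a
field, and let `c_jβ ∈ K[t]` be nonzero polynomials, `β ∈ A_j`. For `t ∈ ℂ` let
`X_t ⊂ (ℂ^×)^n` be the algebraic set defined by the Laurent polynomials
`f_j = ∑_β c_jβ(t) x^β`, `j ≤ m` (`member`). Every one-parameter family of subvarieties of the torus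
is of this form.

**Tropicalization.** For a rational number `α` the tropicalization of the family at `t = α` is the set
`Trop_α` of the `w ∈ ℚ^n` such that for all `j` the minimum of the numbers
`ord_α (c_jβ) + β · w`, `β ∈ A_j`, is attained at least twice.

**Theorem.** Let `α_1, …, α_M` be different rational numbers, and suppose that no linear subspace of
`ℚ^n` of dimension less than `r` meets `N` of the sets `Trop_{α_l}`.

1. If `N ≤ M` then for all `t ∈ ℂ` which are transcendental over `K`, and
2. if `N + 2 d ≤ M` then for all but finitely many algebraic numbers `t` of degree at most `d`,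

the set `X_t` has no atypical intersection with the torsion cosets, and more generally with the cosets
`η H` of all algebraic subgroups `H` of the torus by all points `η` whose coordinates are units of
the integral closure of `ℤ[Γ]` in `ℂ`, where `Γ` is any given finite subset of `K` (`Γ = ∅`:
`η` has coordinates which are algebraic units): every irreducible subset of `X_t ∩ η H` has dimension
at most `dim H - r`. In particular (`H` the torus) all components of `X_t` have dimension at most
`n - r`, and `X_t` does not meet `η H` if `dim H < r`; so the set `U(Y)` of the problem is empty for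
all components `Y` of `X_t` of dimension `n - r`.

The condition is satisfied for almost all systems of orders. For complete intersections, `m = r`,
it holds for example (`general_position`) if for every choice of two different exponents
`a_j, b_j ∈ A_j`, `j ≤ r`, any `k + 1` of the `M` vectors
`(ord_{α_l} (c_{j a_j}) - ord_{α_l} (c_{j b_j}))_j` span `ℚ^r`, and
`N = k ∏_j |A_j| (|A_j| - 1) + 1`.

The proof: if `t` is near to `α_l` at a place of `ℂ` which is good for the family, then the values of
the coordinates of a point of `X_t ∩ η H` give a point of `Trop_{α_l}` on the linear space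
orthogonal to the group of the relations. The places exist for transcendental parameters and, by the
`S`-unit equation applied to the values of the minimal polynomial of `t` at the `α_l` (files of
`Y152`, `TH526`), for all but finitely many `t` of bounded degree and all but `2 d` of the `l`.

The starting files are about translates by powers (`PowerTranslates`), systems with `S`-unit
coefficients (`SUnitSystems`), exponential families of systems
(`MP_b7926e_nt.ExponentialSystems`), and rational translates of a fixed variety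
(`MP_a325a5_ag.RationalTranslates`).
-/

set_option autoImplicit false

namespace Pool.Agent.Results.MP_c95b3b_ag.TropicallyGenericFamilies

open Pool.Agent.Results.MP_b7926e_nt.NoAtypical (coset idealOf dim)

variable {n m : ℕ} {K : Subfield ℂ}

/-- The member `X_t` of the family: the points of the torus at which all the Laurent polynomials
`∑_β c_jβ(t) x^β` vanish. -/
def member (A : Fin m → Finset (Fin n → ℤ)) (c : Fin m → (Fin n → ℤ) → Polynomial K) (t : ℂ) :
    Set (Fin n → ℂ) :=
  {x | (∀ i, x i ≠ 0) ∧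
    ∀ j, ∑ β ∈ A j, Polynomial.aeval t (c j β) * ∏ i, x i ^ β i = 0}

/-- The order at `α` of the coefficient `c_jβ`. -/
noncomputable def order (c : Fin m → (Fin n → ℤ) → Polynomial K) (α : ℚ) (j : Fin m)
    (β : Fin n → ℤ) : ℤ :=
  ((c j β).rootMultiplicity (α : K) : ℤ)

/-- The tropicalization of a system with the supports `A_j` and coefficients of the orders `e_jβ`: the
points `w` of `ℚ^n` such that for all `j` the minimum of `e_jβ + β · w` is attained at two different
exponents `a, b ∈ A_j`. -/
def Trop (A : Fin m → Finset (Fin n → ℤ)) (e : Fin m → (Fin n → ℤ) → ℤ) : Set (Fin n → ℚ) :=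
  {w | ∀ j, ∃ a ∈ A j, ∃ b ∈ A j, a ≠ b ∧
    (e j a : ℚ) + ∑ i, (a i : ℚ) * w i = (e j b : ℚ) + ∑ i, (b i : ℚ) * w i ∧
    ∀ β ∈ A j, (e j a : ℚ) + ∑ i, (a i : ℚ) * w i ≤ (e j β : ℚ) + ∑ i, (β i : ℚ) * w i}

/-- No linear space of dimension less than `r` meets `N` of the sets `T l`. -/
def InGeneralPosition (r N : ℕ) {M : ℕ} (T : Fin M → Set (Fin n → ℚ)) : Prop :=
  ∀ L : Submodule ℚ (Fin n → ℚ), Module.finrank ℚ L < r →
    ∀ S : Finset (Fin M), S.card = N → ∃ l ∈ S, ∀ w ∈ L, w ∉ T l

/-- `z` is a unit of the integral closure in `ℂ` of the ring generated by `Γ`. -/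
def IsUnitOver (Γ : Set ℂ) (z : ℂ) : Prop :=
  z ≠ 0 ∧ IsIntegral (Algebra.adjoin ℤ Γ) z ∧ IsIntegral (Algebra.adjoin ℤ Γ) z⁻¹

/-- `X` has no atypical intersection with the cosets of algebraic subgroups by points whose
coordinates are units over `Γ`: every irreducible subset `B` of `X ∩ η H` has dimension at most
`dim H - r`. Here `η H = {y | y ^ a = η ^ a for all a in Λ}` and `dim H = n - rank Λ`. -/
def NoAtypical (r : ℕ) (Γ : Set ℂ) (X : Set (Fin n → ℂ)) : Prop :=
  ∀ (Λ : Submodule ℤ (Fin n → ℤ)) (η : Fin n → ℂ), (∀ i, IsUnitOver Γ (η i)) →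
    ∀ B : Set (Fin n → ℂ), B ⊆ X → B ⊆ coset Λ η → (idealOf B).IsPrime →
      dim B + (r : Cardinal) + (Module.finrank ℤ Λ : Cardinal) ≤ (n : Cardinal)

/-- `t` is algebraic over the rational numbers, of degree at most `d`. -/
def DegreeAtMost (d : ℕ) (t : ℂ) : Prop :=
  ∃ F : Polynomial ℤ, F ≠ 0 ∧ F.natDegree ≤ d ∧ Polynomial.aeval t F = 0

/-- A torsion coset is a coset by a point whose coordinates are units over every set. -/
theorem isUnitOver_of_pow (Γ : Set ℂ) {z : ℂ} {q : ℕ} (hq : 0 < q) (h : z ^ q = 1) :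
    IsUnitOver Γ z := by
  have hz : z ≠ 0 := by
    rintro rfl
    rw [zero_pow hq.ne'] at h
    exact zero_ne_one h
  have hint : ∀ w : ℂ, w ^ q = 1 → IsIntegral (Algebra.adjoin ℤ Γ) w := fun w hw =>
    IsIntegral.of_pow hq (by rw [hw]; exact isIntegral_one)
  exact ⟨hz, hint z h, hint _ (by rw [inv_pow, h, inv_one])⟩

/-- A sufficient condition for complete intersections. -/
theorem general_position {r M k : ℕ} (A : Fin r → Finset (Fin n → ℤ))
    (e : Fin M → Fin r → (Fin n → ℤ) → ℤ)
    (h : ∀ a b : Fin r → Fin n → ℤ, (∀ j, a j ∈ A j ∧ b j ∈ A j ∧ a j ≠ b j) →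
      ∀ S : Finset (Fin M), S.card = k + 1 → Submodule.span ℚ
        ((fun l (j : Fin r) => ((e l j (a j) : ℚ) - e l j (b j))) '' (S : Set (Fin M))) = ⊤) :
    InGeneralPosition r (k * ∏ j, ((A j).card * ((A j).card - 1)) + 1)
      fun l => Trop A (e l) := by
  classical
  intro L hL S hS
  by_contra hcon
  push Not at hcon
  choose! w hwL hwT using hcon
  have hs : ∀ l, ∃ s : Fin r → (Fin n → ℤ) × (Fin n → ℤ), l ∈ S → ∀ j,
      ((s j).1 ∈ A j ∧ (s j).2 ∈ A j ∧ (s j).1 ≠ (s j).2) ∧
      (e l j (s j).1 : ℚ) + ∑ i, ((s j).1 i : ℚ) * w l i =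
        (e l j (s j).2 : ℚ) + ∑ i, ((s j).2 i : ℚ) * w l i := by
    intro l
    by_cases hl : l ∈ S
    · choose a ha b hb hab heq _ using hwT l hl
      exact ⟨fun j => (a j, b j), fun _ j => ⟨⟨ha j, hb j, hab j⟩, heq j⟩⟩
    · exact ⟨fun _ => (0, 0), fun h => absurd h hl⟩
  choose s hs using hs
  obtain ⟨s0, hs0, hcard⟩ := Finset.exists_lt_card_fiber_of_mul_lt_card_of_maps_to
    (s := S) (t := Fintype.piFinset fun j => (A j).offDiag) (f := s) (n := k)
    (fun l hl => Fintype.mem_piFinset.2 fun j => Finset.mem_offDiag.2 (hs l hl j).1)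
    (by
      have h1 : (Fintype.piFinset fun j => (A j).offDiag).card =
          ∏ j, ((A j).card * ((A j).card - 1)) := by
        rw [Fintype.card_piFinset]
        refine Finset.prod_congr rfl fun j _ => ?_
        rw [Finset.offDiag_card, Nat.mul_sub, mul_one]
      rw [h1, hS, mul_comm]
      exact Nat.lt_succ_self _)
  obtain ⟨S', hS', hS'c⟩ := Finset.exists_subset_card_eq hcard
  have hmem : ∀ l ∈ S', l ∈ S ∧ s l = s0 := fun l hl => Finset.mem_filter.1 (hS' hl)
  have hspan := h (fun j => (s0 j).1) (fun j => (s0 j).2)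
    (fun j => Finset.mem_offDiag.1 (Fintype.mem_piFinset.1 hs0 j)) S' hS'c
  -- the vectors are in the image of `L`
  let F : (Fin n → ℚ) →ₗ[ℚ] (Fin r → ℚ) :=
    LinearMap.pi fun j => ∑ i, (((s0 j).2 i : ℚ) - (s0 j).1 i) • LinearMap.proj i
  have hF : ∀ w j, F w j = ∑ i, ((s0 j).2 i : ℚ) * w i - ∑ i, ((s0 j).1 i : ℚ) * w i := by
    intro w j
    simp only [F, LinearMap.pi_apply, LinearMap.sum_apply, LinearMap.smul_apply,
      LinearMap.proj_apply, smul_eq_mul]
    rw [← Finset.sum_sub_distrib]
    exact Finset.sum_congr rfl fun i _ => by ring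
  have hle : (⊤ : Submodule ℚ (Fin r → ℚ)) ≤ L.map F := by
    rw [← hspan, Submodule.span_le]
    rintro _ ⟨l, hl, rfl⟩
    obtain ⟨hlS, hls⟩ := hmem l hl
    refine ⟨w l, hwL l hlS, ?_⟩
    funext j
    have h2 := (hs l hlS j).2
    rw [hls] at h2
    rw [hF]
    linarith
  have h1 : Module.finrank ℚ (L.map F) ≤ Module.finrank ℚ L := Submodule.finrank_map_le F L
  have h2 := Submodule.finrank_mono hle
  rw [finrank_top, Module.finrank_fin_fun] at h2
  omega

/-- One-parameter families of subvarieties of the torus whose tropicalizations at sufficiently many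
rational parameters are in general position: no member with transcendental parameter and only finitely
many of the members with algebraic parameter of degree at most `d` have an atypical intersection. -/
theorem result {M : ℕ} (r N : ℕ) (A : Fin m → Finset (Fin n → ℤ)) (hA : ∀ j, (A j).Nonempty)
    (c : Fin m → (Fin n → ℤ) → Polynomial K) (hc : ∀ j, ∀ β ∈ A j, c j β ≠ 0)
    (α : Fin M → ℚ) (hα : Function.Injective α)
    (hgen : InGeneralPosition r N fun l => Trop A (order c (α l)))
    (Γ : Set ℂ) (hΓ : Γ.Finite) (hΓK : Γ ⊆ K) :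
    (N ≤ M → ∀ t : ℂ, Transcendental K t → NoAtypical r Γ (member A c t)) ∧
    ∀ d : ℕ, N + 2 * d ≤ M →
      {t : ℂ | DegreeAtMost d t ∧ ¬ NoAtypical r Γ (member A c t)}.Finite := by
  classical
  let Γ' : Set K := {z | (z : ℂ) ∈ Γ}
  have hΓ' : Γ'.Finite := hΓ.preimage Subtype.val_injective.injOn
  obtain ⟨W, hW, hΓW, hnear⟩ := Pool.Agent.Y199.ZF.near A c hc (fun l => ((α l : ℚ) : K)) Γ' hΓ'
  have hcast : ∀ l, algebraMap K ℂ ((α l : ℚ) : K) = ((α l : ℚ) : ℂ) := fun l => map_ratCast _ _
  -- units over `Γ`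
  have hunit : ∀ V : ValuationSubring ℂ, (∀ z ∈ W, algebraMap K ℂ z ∈ V) → ∀ z, IsUnitOver Γ z →
      V.valuation z = 1 := by
    intro V hV z ⟨hz0, h1, h2⟩
    have h3 : ∀ w : ℂ, IsIntegral (Algebra.adjoin ℤ Γ) w → V.valuation w ≤ 1 := by
      intro w hw
      have h4 : algebraMap K ℂ '' Γ' = Γ := by
        ext x
        constructor
        · rintro ⟨g, hg, rfl⟩
          exact hg
        · intro hx
          exact ⟨⟨x, hΓK hx⟩, hx, rfl⟩
      refine Pool.Agent.Y152.BD.v_le_of_int Γ' V (fun x hx => hV x (hΓW hx)) ?_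
      rw [h4]
      exact hw
    refine le_antisymm (h3 z h1) ?_
    have h5 := h3 _ h2
    rw [map_inv₀] at h5
    have h6 : V.valuation z ≠ 0 := (Valuation.ne_zero_iff _).2 hz0
    exact (inv_le_one₀ (zero_lt_iff.2 h6)).1 h5
  -- the criterion
  have main : ∀ (t : ℂ) (f : Fin N → Fin M), Function.Injective f →
      (∀ l, t ≠ ((α l : ℚ) : ℂ)) →
      (∀ l, ∃ V : ValuationSubring ℂ, V.valuation (t - ((α (f l) : ℚ) : ℂ)) < 1 ∧
        ∀ z ∈ W, algebraMap K ℂ z ∈ V) →
      (∀ j, ∀ β ∈ A j, Polynomial.aeval t (c j β) ≠ 0) → NoAtypical r Γ (member A c t) := by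
    intro t f hf htα hV hc0 Λ η hη B hBX hBT hB
    choose V hV1 hV2 using hV
    refine Pool.Agent.Y199.ZF.crit A hA (fun j β => Polynomial.aeval t (c j β)) hc0 V
      (fun l => t - ((α (f l) : ℚ) : ℂ)) (fun l => sub_ne_zero.2 (htα _)) hV1
      (fun l => order c (α (f l))) (fun l j β hβ => ?_) (fun L hL => ?_) Λ η
      (fun i => (hη i).1) (fun l i => hunit (V l) (hV2 l) _ (hη i)) B hBX hBT hB
    · have h1 := hnear (V l) (hV2 l) (f l) t (by rw [hcast]; exact hV1 l) j β hβ
      rw [hcast] at h1
      rw [order, zpow_natCast]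
      exact h1
    · obtain ⟨l, hl, h1⟩ := hgen L hL (Finset.univ.map ⟨f, hf⟩)
        (by rw [Finset.card_map, Finset.card_univ, Fintype.card_fin])
      obtain ⟨l', -, rfl⟩ := Finset.mem_map.1 hl
      exact ⟨l', h1⟩
  refine ⟨fun hNM t ht => ?_, fun d hM => ?_⟩
  · refine main t (Fin.castLE hNM) (Fin.castLE_injective hNM) (fun l h => ?_) (fun l => ?_)
      (fun j β hβ h => ?_)
    · apply ht
      rw [h, ← hcast l]
      exact isAlgebraic_algebraMap _
    · obtain ⟨V, hV1, hV2⟩ := Pool.Agent.Y199.ZF.exists_place_transcendental t ht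
        ((α (Fin.castLE hNM l) : ℚ) : K)
      rw [hcast] at hV1
      exact ⟨V, hV1, fun z _ => hV2 z⟩
    · exact ht ⟨c j β, hc j β hβ, h⟩
  · obtain ⟨D, hD⟩ := Pool.Agent.Y152.BD.exists_places (k := ℂ) (L := N)
      (algebraMap K ℂ '' W) (hW.image _) α
    have hroots : (⋃ j, ⋃ β ∈ A j, {t : ℂ | Polynomial.aeval t (c j β) = 0}).Finite := by
      refine Set.finite_iUnion fun j => (A j).finite_toSet.biUnion fun β hβ => ?_
      refine ((c j β).aroots ℂ).toFinset.finite_toSet.subset fun t ht => ?_
      rw [Finset.mem_coe, Multiset.mem_toFinset, Polynomial.mem_aroots]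
      exact ⟨hc j β hβ, ht⟩
    refine ((Pool.Agent.Y152.BD.finite_badD D d (L := N) (M := M) hM α hα).union
      (hroots.union (Set.finite_range fun l => ((α l : ℚ) : ℂ)))).subset ?_
    rintro t ⟨htd, ht⟩
    by_contra hcon
    rw [Set.mem_union, Set.mem_union, not_or, not_or] at hcon
    obtain ⟨h1, h2, h3⟩ := hcon
    have h4 : ∃ f : Fin N → Fin M, Function.Injective f ∧
        ∃ G : Polynomial ℤ, Irreducible G ∧ Polynomial.aeval t G = 0 ∧
        ∀ l, ∃ p : ℕ, p.Prime ∧ D < p ∧ (p : ℤ) ∣ Pool.Agent.Y152.BD.Nv G (α (f l)) := by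
      by_contra h
      exact h1 ⟨htd, h⟩
    obtain ⟨f, hf, G, hG, hGt, hp⟩ := h4
    refine ht (main t f hf (fun l h => h3 ⟨l, h.symm⟩) (fun l => ?_) (fun j β hβ h => h2 ?_))
    · obtain ⟨V, hV1, hV2, -⟩ := hD t f G hG hGt hp Empty (Empty.elim : Empty → ℂ)
        (algebraicIndependent_empty_type_iff.2 (algebraMap ℂ ℂ).injective) l
      exact ⟨V, hV1, fun z hz => hV2 _ ⟨z, hz, rfl⟩⟩
    · exact Set.mem_iUnion.2 ⟨j, Set.mem_biUnion hβ h⟩

end Pool.Agent.Results.MP_c95b3b_ag.TropicallyGenericFamilies
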